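import Pool.Agent.Helper98.TA.Stmts2
import Pool.Agent.Helper98.TA.Basic
import Pool.Agent.Helper41.TWR.ALS
import Pool.Agent.Helper46.TWR.Ex
import Pool.Agent.Helper13.TWR.POW

/-! Row TWT of the sheet TA (MP_7a8f48_an): ergodic towers of torus extensions are totally ergodic
and generated by finitely many functions with increments in the previous sigma algebras. -/

set_option linter.unusedSectionVars false

open MeasureTheory Filter Topology Finset
open scoped ComplexConjugate Real

namespace Pool.Agent.Helper49.TA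

open Pool.Agent.Helper98.TW
open Pool.Agent.Helper98.TA (ad Tr Md ST_TWT)
open Pool.Agent.Helper16.AZ (T mm)

section abs
variable {Ω : Type} [m0 : MeasurableSpace Ω] {μ : Measure Ω}

/-- without eigenvalues of finite order the powers are ergodic -/
theorem erg_pow [IsProbabilityMeasure μ] {S : Ω → Ω} (he : Ergodic S μ) {m : ℕ} (hm : 1 ≤ m)
    (h : ∀ ψ : Ω → ℂ, UF μ ψ → ∀ lam : ℂ, lam ^ m = 1 → (∀ᵐ x ∂μ, ψ (S x) = lam * ψ x) →
      lam = 1) : Ergodic S^[m] μ := by
  have hmp : MeasurePreserving S μ μ := he.toMeasurePreserving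
  have hm0 : (m : ℂ) ≠ 0 := by exact_mod_cast (by omega : m ≠ 0)
  refine ⟨hmp.iterate m, ⟨fun s hs hfs => ?_⟩⟩
  set F : Ω → ℂ := s.indicator fun _ => (1 : ℂ) with hF
  have hFm : Measurable F := measurable_const.indicator hs
  have hFS : ∀ x, F (S^[m] x) = F x := by
    intro x
    by_cases hx : x ∈ s
    · have : S^[m] x ∈ s := by
        have h1 : x ∈ S^[m] ⁻¹' s := by rw [hfs]; exact hx
        exact h1
      rw [hF, Set.indicator_of_mem this, Set.indicator_of_mem hx]
    · have : S^[m] x ∉ s := by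
        intro h2
        exact hx (by rw [← hfs]; exact h2)
      rw [hF, Set.indicator_of_notMem this, Set.indicator_of_notMem hx]
  set ω : ℂ := Complex.exp (2 * π * Complex.I / m) with hω
  have hprim : IsPrimitiveRoot ω m := Complex.isPrimitiveRoot_exp m (by omega)
  have hω0 : ω ≠ 0 := Complex.exp_ne_zero _
  let G : ℕ → Ω → ℂ := fun j x => ∑ i ∈ range m, ((ω ^ j) ^ i)⁻¹ * F (S^[i] x)
  have hGm : ∀ j, Measurable (G j) := by
    intro j
    refine Finset.measurable_sum _ fun i _ => ?_
    exact (hFm.comp (hmp.measurable.iterate i)).const_mul _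
  have hGS : ∀ j x, G j (S x) = ω ^ j * G j x := by
    intro j x
    simp only [G]
    have h0 : ω ^ j ≠ 0 := pow_ne_zero _ hω0
    have h1 : ∑ i ∈ range m, ((ω ^ j) ^ i)⁻¹ * F (S^[i] (S x)) =
        ω ^ j * ∑ i ∈ range m, ((ω ^ j) ^ (i + 1))⁻¹ * F (S^[i + 1] x) := by
      rw [Finset.mul_sum]
      refine Finset.sum_congr rfl fun i _ => ?_
      rw [Function.iterate_succ_apply, pow_succ, mul_inv]
      rw [← mul_assoc, mul_comm (ω ^ j), mul_assoc (((ω ^ j) ^ i)⁻¹), inv_mul_cancel₀ h0, mul_one]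
    rw [h1]
    have h2 := Finset.sum_range_succ' (fun i => ((ω ^ j) ^ i)⁻¹ * F (S^[i] x)) m
    have h3 := Finset.sum_range_succ (fun i => ((ω ^ j) ^ i)⁻¹ * F (S^[i] x)) m
    have h4 : ((ω ^ j) ^ m)⁻¹ * F (S^[m] x) = F x := by
      rw [hFS, ← pow_mul, mul_comm j m, pow_mul, hprim.pow_eq_one, one_pow, inv_one, one_mul]
    rw [h4] at h3
    simp only [pow_zero, inv_one, one_mul, Function.iterate_zero, id_eq] at h2
    have h5 : ∑ i ∈ range m, ((ω ^ j) ^ (i + 1))⁻¹ * F (S^[i + 1] x) =
        ∑ i ∈ range m, ((ω ^ j) ^ i)⁻¹ * F (S^[i] x) := by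
      have := h2.symm.trans h3
      exact add_right_cancel this
    rw [h5]
  have hsum : ∀ x, ∑ j ∈ range m, G j x = m * F x := by
    intro x
    simp only [G]
    rw [Finset.sum_comm]
    have h1 : ∀ i ∈ range m, ∑ j ∈ range m, ((ω ^ j) ^ i)⁻¹ * F (S^[i] x) =
        if i = 0 then m * F x else 0 := by
      intro i hi
      rw [← Finset.sum_mul]
      by_cases hi0 : i = 0
      · subst hi0
        simp
      · rw [if_neg hi0]
        have h2 : ∑ j ∈ range m, ((ω ^ j) ^ i)⁻¹ = ∑ j ∈ range m, ((ω ^ i)⁻¹) ^ j := by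
          refine Finset.sum_congr rfl fun j _ => ?_
          rw [← pow_mul, mul_comm j i, pow_mul, inv_pow]
        have h3 : (ω ^ i)⁻¹ ≠ 1 := by
          intro h
          have h4 : ω ^ i = 1 := by rw [← inv_inv (ω ^ i), h, inv_one]
          have h5 := (hprim.pow_eq_one_iff_dvd i).1 h4
          have h6 := Nat.le_of_dvd (Nat.pos_of_ne_zero hi0) h5
          have h7 := Finset.mem_range.1 hi
          omega
        have h4 : ∑ j ∈ range m, ((ω ^ i)⁻¹) ^ j = 0 := by
          have h5 := geom_sum_mul ((ω ^ i)⁻¹) m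
          have h6 : ((ω ^ i)⁻¹) ^ m = 1 := by
            rw [inv_pow, ← pow_mul, mul_comm i m, pow_mul, hprim.pow_eq_one, one_pow, inv_one]
          rw [h6, sub_self] at h5
          exact (mul_eq_zero.1 h5).resolve_right (sub_ne_zero.2 h3)
        rw [h2, h4, zero_mul]
    rw [Finset.sum_congr rfl h1]
    rw [Finset.sum_ite_eq' (range m) 0 (fun _ => (m : ℂ) * F x)]
    rw [if_pos (Finset.mem_range.2 (by omega))]
  have hω1 : ‖ω‖ = 1 := hprim.norm'_eq_one (by omega)
  -- the eigenfunctions are constant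
  have hconst : ∀ j ∈ range m, ∃ c : ℂ, G j =ᵐ[μ] fun _ => c := by
    intro j hj
    obtain ⟨r, hr⟩ := he.quasiErgodic.ae_eq_const_of_ae_eq_comp_ae
      (g := fun x => ‖G j x‖) (hGm j).norm.aestronglyMeasurable
      (Eventually.of_forall fun x => by
        show ‖G j (S x)‖ = ‖G j x‖
        rw [hGS, norm_mul, norm_pow, hω1, one_pow, one_mul])
    by_cases hr0 : r = 0
    · refine ⟨0, ?_⟩
      filter_upwards [hr] with x hx
      have h1 : ‖G j x‖ = r := hx
      rw [hr0] at h1
      exact norm_eq_zero.1 h1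
    · have hr0' : (r : ℂ) ≠ 0 := by exact_mod_cast hr0
      have hrn : 0 ≤ r := by
        obtain ⟨x, hx⟩ := hr.exists
        have h1 : ‖G j x‖ = r := hx
        rw [← h1]
        exact norm_nonneg _
      have hψ : UF μ (fun x => G j x / r) := by
        refine ⟨(hGm j).div_const _, ?_⟩
        filter_upwards [hr] with x hx
        have h1 : ‖G j x‖ = r := hx
        rw [norm_div, h1, Complex.norm_real, Real.norm_of_nonneg hrn, div_self hr0]
      have h1 := h _ hψ (ω ^ j) (by
        rw [← pow_mul, mul_comm j m, pow_mul, hprim.pow_eq_one, one_pow])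
        (Eventually.of_forall fun x => by
          show G j (S x) / r = ω ^ j * (G j x / r)
          rw [hGS]
          ring)
      obtain ⟨c, hc⟩ := he.quasiErgodic.ae_eq_const_of_ae_eq_comp_ae
        (g := G j) (hGm j).aestronglyMeasurable
        (Eventually.of_forall fun x => by
          show G j (S x) = G j x
          rw [hGS, h1, one_mul])
      exact ⟨c, hc⟩
  choose! c hc using hconst
  have hF2 : F =ᵐ[μ] fun _ => (∑ j ∈ range m, c j) / m := by
    have hall : ∀ᵐ x ∂μ, ∀ j ∈ range m, G j x = c j :=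
      (ae_ball_iff (range m).countable_toSet).2 fun j hj => hc j hj
    filter_upwards [hall] with x hx
    have h1 := hsum x
    rw [Finset.sum_congr rfl hx] at h1
    field_simp
    linear_combination -h1
  rw [eventuallyConst_set']
  by_cases hd : (∑ j ∈ range m, c j) / m = (1 : ℂ)
  · right
    filter_upwards [hF2] with x hx
    rw [hd] at hx
    apply propext
    refine ⟨fun _ => trivial, fun _ => ?_⟩
    by_contra hxs
    have h1 : F x = 0 := by rw [hF]; exact Set.indicator_of_notMem hxs _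
    rw [h1] at hx
    exact zero_ne_one hx
  · left
    filter_upwards [hF2] with x hx
    apply propext
    refine ⟨fun hxs => ?_, fun hx' =>
      absurd (show x ∈ (∅ : Set Ω) from hx') (Set.notMem_empty x)⟩
    have hxs' : x ∈ s := hxs
    have h1 : F x = 1 := by rw [hF]; exact Set.indicator_of_mem hxs' _
    rw [h1] at hx
    exact absurd hx.symm hd

/-- the extensions by the functions `u` -/
noncomputable def AA (μ : Measure Ω) (u : ℕ → Ω → ℂ) : ℕ → SA Ω
  | 0 => bo
  | k + 1 => ad μ (AA μ u k) (u k)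

end abs

section tow
variable {N : ℕ} {lev : Fin N → ℕ} {f f' : Fin N → T N → U}

open Pool.Agent.Helper46.TWR (ex_zero ex_uf ex_norm ex_SS)

theorem ex_nsmul (m : ℕ) (a : Fin N → ℤ) (x : T N) : ex (m • a) x = ex a x ^ m := by
  induction m with
  | zero => rw [zero_smul, ex_zero, pow_zero]
  | succ m ih => rw [succ_nsmul, Pool.Agent.Helper46.TWR.ex_add, ih, pow_succ]

/-- a root of a constant on the levels `≤ l` belongs to the levels `< l` -/
theorem low (hM : ST_MPS) (hI : ST_IAL) (hA : ST_ALS) (hZ : ST_CHZ) (hL : ST_LT)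
    (ht : TI lev f f') (he : Ergodic (SS f) (mm N)) {ψ : T N → ℂ} (hψ : UF (mm N) ψ) {lam : ℂ}
    (hl : ∀ᵐ x ∂(mm N), ψ (SS f x) = lam * ψ x) {m : ℕ} (hm : 1 ≤ m) {c : ℂ}
    (hc : ∀ᵐ x ∂(mm N), ψ x ^ m = c) (l : ℕ) (h : AM (mm N) (AL lev (l + 1)) ψ) :
    AM (mm N) (AL lev l) ψ := by
  have hS : Sys (mm N) (SS f) (SS f') := by simpa using hM N lev f f' ht 1
  have hIA : IA (mm N) (AL lev l) (SS f) (SS f') := by simpa using hI N lev f f' ht l 1
  obtain ⟨-, hAs, -, -, -, hAg, -⟩ := hA N lev
  have hinc : Inc (mm N) (AL lev l) (SS f) ψ := by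
    refine am_congr (am_const lam) ?_
    filter_upwards [hl, hψ.mul_conj] with x h1 h2
    rw [h1]
    linear_combination -lam * h2
  have hchi : ∀ χ ∈ CH lev l, Inc (mm N) (AL lev l) (SS f) χ := by
    rintro χ ⟨a, ha, rfl⟩
    exact Pool.Agent.Helper13.TWR.inc_ex ht.t ha
  obtain ⟨χ, ⟨a, ha, rfl⟩, hu⟩ := hL (T N) (mm N) (SS f) (SS f') (AL lev l) (CH lev l) ψ
    hS he hIA (hAg l) hchi hψ (by rw [← hAs l]; exact h) hinc
  by_cases ha0 : a = 0
  · refine am_congr hu (Eventually.of_forall fun x => ?_)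
    show ψ x * conj (ex a x) = ψ x
    rw [ha0, ex_zero]
    simp
  · exfalso
    have hb0 : m • a ≠ 0 := by
      intro h1
      apply ha0
      funext i
      have h2 := congrFun h1 i
      simp only [Pi.smul_apply, nsmul_eq_mul, Pi.zero_apply, mul_eq_zero] at h2
      rcases h2 with h2 | h2
      · exact absurd h2 (by exact_mod_cast (by omega : m ≠ 0))
      · exact h2
    have hbl : la lev l (m • a) := fun i hi => ha i fun h => hi (by
      rw [Pi.smul_apply, h, smul_zero])
    refine Pool.Agent.Helper13.TWR.ex_not_am hZ hA hb0 hbl ?_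
    have h1 := am_mul (am_conj (am_pow hu m)) (am_const (μ := mm N) (𝒜 := AL lev l) c)
    refine am_congr h1 ?_
    filter_upwards [hc, hψ.2] with x hx hx1
    show conj ((ψ x * conj (ex a x)) ^ m) * c = ex (m • a) x
    rw [mul_pow, map_mul, map_pow, map_pow, Complex.conj_conj, ex_nsmul, ← hx]
    have h2 : conj (ψ x) * ψ x = 1 := by
      rw [mul_comm, Complex.mul_conj, Complex.normSq_eq_norm_sq, hx1]
      simp
    calc conj (ψ x) ^ m * ex a x ^ m * ψ x ^ m = (conj (ψ x) * ψ x) ^ m * ex a x ^ m := by ring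
      _ = ex a x ^ m := by rw [h2, one_pow, one_mul]

/-- there are no eigenvalues of finite order -/
theorem no_root (hM : ST_MPS) (hI : ST_IAL) (hA : ST_ALS) (hZ : ST_CHZ) (hL : ST_LT)
    (ht : TI lev f f') (he : Ergodic (SS f) (mm N)) {ψ : T N → ℂ} (hψ : UF (mm N) ψ) {lam : ℂ}
    (hl : ∀ᵐ x ∂(mm N), ψ (SS f x) = lam * ψ x) {m : ℕ} (hm : 1 ≤ m) (hlam : lam ^ m = 1) :
    lam = 1 := by
  obtain ⟨c, hc⟩ := he.quasiErgodic.ae_eq_const_of_ae_eq_comp_ae
    (g := fun x => ψ x ^ m) (hψ.1.pow_const m).aestronglyMeasurable (by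
      filter_upwards [hl] with x hx
      show ψ (SS f x) ^ m = ψ x ^ m
      rw [hx, mul_pow, hlam, one_mul])
  obtain ⟨h0, -, -, -, htop, -, -⟩ := hA N lev
  have hall : ∀ l, AM (mm N) (AL lev l) ψ → AM (mm N) (AL lev 0) ψ := by
    intro l
    induction l with
    | zero => exact id
    | succ l ih => exact fun h => ih (low hM hI hA hZ hL ht he hψ hl hm hc l h)
  have h1 : AM (mm N) (AL lev 0) ψ := by
    refine hall (∑ i, lev i + 1) ?_
    rw [htop (∑ i, lev i + 1) fun i => Nat.lt_succ_of_le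
      (Finset.single_le_sum (f := lev) (fun _ _ => Nat.zero_le _) (Finset.mem_univ i))]
    exact am_of hψ.1
  rw [h0] at h1
  obtain ⟨b, hb⟩ := am_bo.1 h1
  have hmp : MeasurePreserving (SS f) (mm N) (mm N) := he.toMeasurePreserving
  obtain ⟨x, h1, h2, h3, h4⟩ := (hl.and (hψ.2.and (hb.and
    (ae_comp (P := fun x => ψ x = b) hmp hb)))).exists
  have h3' : ψ x = b := h3
  have h5 : lam * b = b := by
    rw [h3', h4] at h1
    exact h1.symm
  have h6 : b ≠ 0 := by
    intro h
    rw [h3', h, norm_zero] at h2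
    exact zero_ne_one h2
  exact mul_right_cancel₀ h6 (by rw [h5, one_mul])

/-- the sigma algebra of the levels `< l` is generated by the characters of the coordinates -/
theorem AL_le_sg (l : ℕ) : @LE.le (MeasurableSpace (T N)) _ (AL lev l)
    (sg {φ | ∃ j : Fin N, lev j < l ∧ φ = ex (Pi.single j 1)}) := by
  have hm : Measurable[(sg {φ | ∃ j : Fin N, lev j < l ∧ φ = ex (Pi.single j 1)} :
      MeasurableSpace (T N))] (tr lev l : T N → T N) := by
    refine @measurable_pi_lambda _ _ _
      (sg {φ | ∃ j : Fin N, lev j < l ∧ φ = ex (Pi.single j 1)}) _ _ fun i => ?_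
    by_cases hi : lev i < l
    · have h2 : Measurable[sg {φ | ∃ j : Fin N, lev j < l ∧ φ = ex (Pi.single j 1)}]
          (ex (Pi.single i 1) : T N → ℂ) :=
        @Measurable.mono _ _ _ _ _ _ _ (comap_measurable _)
          (le_sg (Φ := {φ | ∃ j : Fin N, lev j < l ∧ φ = ex (Pi.single j 1)}) ⟨i, hi, rfl⟩) le_rfl
      have e : (fun x : T N => tr lev l x i) = fun x : T N => x i := by
        funext x
        rw [Pool.Agent.Helper41.TWR.tr_apply, if_pos hi]
      rw [e]
      intro s hs
      have hs2 : MeasurableSet[MeasurableSpace.comap (fun z : U => (fourier 1 z : ℂ))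
          (inferInstance : MeasurableSpace ℂ)] s := by
        rw [Pool.Agent.Helper41.TWR.comap_fourier]
        exact hs
      obtain ⟨u, hu, rfl⟩ := hs2
      have h3 := h2 hu
      have e : (ex (Pi.single i 1) : T N → ℂ) ⁻¹' u =
          (fun x : T N => x i) ⁻¹' ((fun z : U => (fourier 1 z : ℂ)) ⁻¹' u) := by
        ext x
        show ex (Pi.single i 1) x ∈ u ↔ (fourier 1 (x i) : ℂ) ∈ u
        rw [Pool.Agent.Helper41.TWR.ex_single]
      rw [← e]
      exact h3
    · have e : (fun x : T N => tr lev l x i) = fun _ => (0 : U) := by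
        funext x
        rw [Pool.Agent.Helper41.TWR.tr_apply, if_neg hi]
      rw [e]
      exact @measurable_const _ _ _
        (sg {φ | ∃ j : Fin N, lev j < l ∧ φ = ex (Pi.single j 1)}) (0 : U)
  exact hm.comap_le

theorem lq_AL {𝒟 : SA (T N)} {l : ℕ}
    (h : ∀ j : Fin N, lev j < l → AM (mm N) 𝒟 (ex (Pi.single j 1))) :
    LQ (mm N) (AL lev l) 𝒟 :=
  lq_trans (lq_of_le (AL_le_sg l)) (lq_sg fun φ hφ => by
    obtain ⟨j, hj, rfl⟩ := hφ
    exact h j hj)

/-- the functions which generate the space -/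
noncomputable def uu (lev : Fin N → ℕ) (k : ℕ) : T N → ℂ :=
  if h : k < N then ex (Pi.single (Tuple.sort lev ⟨k, h⟩) 1) else fun _ => 1

theorem uu_uf (k : ℕ) : UF (mm N) (uu lev k) := by
  unfold uu
  split
  · exact ex_uf _
  · exact uf_one

theorem am_AA (k : ℕ) (i : Fin N) (hi : i.val < k) :
    AM (mm N) (AA (mm N) (uu lev) k) (ex (Pi.single (Tuple.sort lev i) 1)) := by
  induction k with
  | zero => omega
  | succ k ih =>
    by_cases h : i.val < k
    · exact am_mono Pool.Agent.Helper98.TA.le_ad (ih h)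
    · have h1 : i.val = k := by omega
      have h2 : k < N := by omega
      have h3 : uu lev k = ex (Pi.single (Tuple.sort lev i) 1) := by
        have h4 : (⟨k, h2⟩ : Fin N) = i := Fin.ext h1.symm
        unfold uu
        rw [dif_pos h2, h4]
      rw [← h3]
      exact Pool.Agent.Helper98.TA.am_ad_u (uu_uf k)

theorem tr_AA (ht : Tow lev f) : Tr (mm N) (SS f) (uu lev) (AA (mm N) (uu lev)) N where
  zero := rfl
  succ := fun k => rfl
  uf := uu_uf
  inc := fun k => by
    by_cases h : k < N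
    · have h3 : uu lev k = ex (Pi.single (Tuple.sort lev ⟨k, h⟩) 1) := by
        unfold uu
        rw [dif_pos h]
      rw [h3]
      have hla : la lev (lev (Tuple.sort lev ⟨k, h⟩)) (Pi.single (Tuple.sort lev ⟨k, h⟩) 1) := by
        intro i hi
        by_contra hne
        have h1 : i ≠ Tuple.sort lev ⟨k, h⟩ := fun h2 => hne (by rw [h2])
        rw [Pi.single_eq_of_ne h1] at hi
        exact hi rfl
      refine (lq_AL fun j hj => ?_) _ (Pool.Agent.Helper13.TWR.inc_ex ht hla)
      obtain ⟨i, rfl⟩ := (Tuple.sort lev).surjective j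
      refine am_AA k i ?_
      by_contra hik
      have h4 : (⟨k, h⟩ : Fin N) ≤ i := Fin.mk_le_of_le_val (by omega)
      have h5 := Tuple.monotone_sort lev h4
      simp only [Function.comp_apply] at h5
      omega
    · have h3 : uu lev k = fun _ => 1 := by
        unfold uu
        rw [dif_neg h]
      rw [h3]
      exact inc_one
  top := fun g hg => by
    have h1 : AM (mm N) (AL lev (∑ i, lev i + 1)) g := by
      rw [Pool.Agent.Helper41.TWR.AL_top fun i => Nat.lt_succ_of_le
        (Finset.single_le_sum (f := lev) (fun _ _ => Nat.zero_le _) (Finset.mem_univ i))]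
      exact am_of hg
    refine (lq_AL fun j _ => ?_) g h1
    obtain ⟨i, rfl⟩ := (Tuple.sort lev).surjective j
    exact am_AA N i i.isLt

end tow

/-- TWT: ergodic towers of torus extensions are systems of this kind. -/
theorem st_TWT (hN : ST_INV) (hM : ST_MPS) (hI : ST_IAL) (hA : ST_ALS) (hZ : ST_CHZ)
    (hL : ST_LT) : ST_TWT := by
  intro N lev f hf he
  obtain ⟨f', ht⟩ := hN N lev f hf
  refine ⟨fun m hm => erg_pow he hm fun ψ hψ lam hlam hl =>
    no_root hM hI hA hZ hL ht he hψ hl hm hlam, uu lev, AA (mm N) (uu lev), N, tr_AA hf⟩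

end Pool.Agent.Helper49.TA
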