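import Pool.Agent.Helper98.TA.Stmts
import Pool.Agent.Helper98.TW.Basic

/-! Row ABX of the sheet TA (MP_7a8f48_an): chains of abelian extensions. -/

set_option linter.unusedSectionVars false

open MeasureTheory Filter Topology Finset
open scoped ComplexConjugate

namespace Pool.Agent.Helper49.TA

open Pool.Agent.Helper98.TW
open Pool.Agent.Helper98.TA

section
variable {Ω : Type} [m0 : MeasurableSpace Ω] {μ : Measure Ω} {E s : SA Ω} {S S' R R' : Ω → Ω}
  {u φ ψ : Ω → ℂ}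

/-- increments for powers of the transformation -/
theorem inc_it (hA : IA μ E S S') (hS : Sys μ S S') (hψ : UF μ ψ) (hi : Inc μ E S ψ)
    (n : ℕ) : Inc μ E S^[n] ψ := by
  induction n with
  | zero =>
    refine am_congr (am_const (1 : ℂ)) ?_
    filter_upwards [hψ.mul_conj] with x hx
    exact hx.symm
  | succ n ih =>
    have h1 := ((hA.iterate n).2 _ hi).1
    refine am_congr (am_mul h1 ih) ?_
    filter_upwards [ae_comp (hS.iterate n).mp hψ.mul_conj] with x hx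
    rw [Function.iterate_succ_apply']
    linear_combination (ψ (S (S^[n] x)) * conj (ψ x)) * hx

/-- integer powers of a unimodular function have increments -/
theorem inc_zpow (hi : Inc μ E R u) (n : ℤ) : Inc μ E R (fun x => u x ^ n) := by
  have hm : Measurable (fun z : ℂ => z ^ n) := measurable_id.pow_const n
  refine am_congr (am_cont hm hi) (Eventually.of_forall fun x => ?_)
  show (u (R x) * conj (u x)) ^ n = u (R x) ^ n * conj (u x ^ n)
  rw [mul_zpow, map_zpow₀]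

/-- powers of `u` up to `E` form a group -/
theorem grp_pw (hu : UF μ u) : Grp μ (Pw μ E u) := by
  refine ⟨fun φ h => h.1, ⟨uf_one, 0, am_congr (am_const 1) (Eventually.of_forall fun x => ?_)⟩,
    ?_, ?_⟩
  · simp
  · rintro φ ⟨h1, n, hn⟩ ψ ⟨h2, m, hm⟩
    refine ⟨h1.mul h2, n + m, am_congr (am_mul hn hm) ?_⟩
    filter_upwards [hu.2] with x hx
    have h0 : u x ≠ 0 := fun h => by simp [h] at hx
    rw [zpow_add₀ h0, map_mul]
    ring
  · rintro φ ⟨h1, n, hn⟩
    refine ⟨h1.conj, -n, am_congr (am_conj hn) ?_⟩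
    filter_upwards [hu.2] with x hx
    have h1 : ‖u x ^ n‖ = 1 := by rw [norm_zpow, hx, one_zpow]
    rw [zpow_neg, Complex.inv_eq_conj h1, map_mul]

/-- the elements of `Pw` have increments -/
theorem inc_pw (hA : IA μ E R R') (hR : Sys μ R R') (hu : UF μ u) (hi : Inc μ E R u)
    (h : φ ∈ Pw μ E u) : Inc μ E R φ := by
  obtain ⟨-, n, hn⟩ := h
  refine Inc.congr hR.mp ((inc_of_am hA hn).mul (inc_zpow hi n)) ?_
  filter_upwards [hu.2] with x hx
  have h1 : ‖u x ^ n‖ = 1 := by rw [norm_zpow, hx, one_zpow]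
  have h2 : conj (u x ^ n) * u x ^ n = 1 := by
    rw [mul_comm, Complex.mul_conj, Complex.normSq_eq_norm_sq, h1]
    simp
  linear_combination (φ x) * h2

/-- the functions with increments form a group -/
theorem grp_ga : Grp μ (Ga μ S E) :=
  ⟨fun _ h => h.1, ⟨uf_one, inc_one⟩, fun _ h _ k => ⟨h.1.mul k.1, h.2.mul k.2⟩,
    fun _ h => ⟨h.1.conj, h.2.conj⟩⟩

/-- `ad` is invariant -/
theorem ia_ad (hI : ST_IAJ) [IsProbabilityMeasure μ] (hS : Sys μ S S') (hA : IA μ E S S')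
    (hu : UF μ u) (hi : Inc μ E S u) : IA μ (ad μ E u) S S' :=
  (hI Ω μ S S' hS).2 E (Pw μ E u) hA (grp_pw hu) fun _ h => inc_pw hA hS hu hi h

/-- `fr` is invariant -/
theorem ia_fr (hI : ST_IAJ) [IsProbabilityMeasure μ] (hS : Sys μ S S') (hA : IA μ E S S') :
    IA μ (fr μ S E) S S' :=
  (hI Ω μ S S' hS).2 E (Ga μ S E) hA grp_ga fun _ h => h.2

theorem ab_ad (hS : Sys μ S S') (hA : IA μ E S S') (hu : UF μ u) (hi : Inc μ E S u) {l p : ℕ}
    (h : Ab μ S^[p] s E l) : Ab μ S^[p] s (ad μ E u) (l + 1) :=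
  Ab.step E l (Pw μ E u) h (grp_pw hu) fun _ hφ =>
    inc_pw (hA.iterate p) (hS.iterate p) hu (inc_it hA hS hu hi p) hφ

theorem ab_fr (hS : Sys μ S S') (hA : IA μ E S S') {l p : ℕ}
    (h : Ab μ S^[p] s E l) : Ab μ S^[p] s (fr μ S E) (l + 1) :=
  Ab.step E l (Ga μ S E) h grp_ga fun _ hφ => inc_it hA hS hφ.1 hφ.2 p

theorem ct_ab (hI : ST_IAJ) [IsProbabilityMeasure μ] (hS : Sys μ S S') (hA : IA μ s S S')
    (hl : ∃ l : ℕ, ∀ p : ℕ, Ab μ S^[p] bo s l) (h : Ct μ S s E) :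
    IA μ E S S' ∧ ∃ l : ℕ, ∀ p : ℕ, Ab μ S^[p] bo E l := by
  induction h with
  | refl => exact ⟨hA, hl⟩
  | step E τ M _ hτ hi _ _ ih =>
    obtain ⟨h1, l, h2⟩ := ih
    exact ⟨ia_ad hI hS h1 hτ hi, l + 1, fun p => ab_ad hS h1 hτ hi (h2 p)⟩

theorem sg_ab (hI : ST_IAJ) [IsProbabilityMeasure μ] (hS : Sys μ S S') (h : Sg μ S s) :
    IA μ s S S' ∧ ∃ l : ℕ, ∀ p : ℕ, Ab μ S^[p] bo s l := by
  induction h with
  | zero => exact ⟨ia_bo hS, 0, fun p => Ab.refl⟩
  | succ s E _ hC _ ih =>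
    obtain ⟨h1, l, h2⟩ := ct_ab hI hS ih.1 ih.2 hC
    exact ⟨ia_fr hI hS h1, l + 1, fun p => ab_fr hS h1 (h2 p)⟩

end

/-- ABX: stages and their torsion extensions are chains of abelian extensions. -/
theorem st_ABX (hI : ST_IAJ) : ST_ABX := by
  intro Ω _ μ _ S S' hS
  refine ⟨fun s E hs hE => ?_, fun u A N hT k => ?_⟩
  · obtain ⟨h1, h2⟩ := sg_ab hI hS hs
    exact ct_ab hI hS h1 h2 hE
  · have key : ∀ k : ℕ, IA μ (A k) S S' ∧ ∀ p : ℕ, Ab μ S^[p] bo (A k) k := by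
      intro k
      induction k with
      | zero =>
        rw [hT.zero]
        exact ⟨ia_bo hS, fun p => Ab.refl⟩
      | succ k ih =>
        rw [hT.succ]
        exact ⟨ia_ad hI hS ih.1 (hT.uf k) (hT.inc k),
          fun p => ab_ad hS ih.1 (hT.uf k) (hT.inc k) (ih.2 p)⟩
    exact fun p => ⟨(key k).1, (key k).2 p⟩

end Pool.Agent.Helper49.TA
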