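import Pool.Agent.Helper98.TA.Basic

/-! Row HQB of the sheet TA (MP_7a8f48_an): adjoining visible functions. -/

set_option linter.unusedSectionVars false

open MeasureTheory Filter Topology Finset
open scoped ComplexConjugate

namespace Pool.Agent.Helper49.TA

open Pool.Agent.Helper98.TW
open Pool.Agent.Helper98.TA (J1 J2 B2 Vi QQ Dv ST_HQB St.s1 cm_sg)
open Pool.Agent.Helper98.GY (JY)

section
variable {Ω : Type} [m0 : MeasurableSpace Ω] {μ : Measure Ω} {D : SA Ω} {R : Ω → Ω}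
  {κ : Measure (Ω × Ω)} {χ : Ω → ℂ}

/-- the visible functions with increments form a group -/
theorem grp_vi : Grp μ {ψ | UF μ ψ ∧ Inc μ D R ψ ∧ Vi κ D ψ} where
  uf := fun _ h => h.1
  one := ⟨uf_one, inc_one, am_const 1⟩
  mul := fun _ h _ h' => ⟨h.1.mul h'.1, h.2.1.mul h'.2.1, am_mul h.2.2 h'.2.2⟩
  inv := fun _ h => ⟨h.1.conj, h.2.1.conj, am_conj h.2.2⟩

/-- adjoining visible functions does not change the visible sigma algebra -/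
theorem lq_vi {Ψ : Set (Ω → ℂ)} (h : ∀ ψ ∈ Ψ, Vi κ D ψ) :
    LQ κ (jo (B2 Ω) (J1 (jo D (sg Ψ)))) (jo (B2 Ω) (J1 D)) := by
  refine lq_jo lq_jo_left ?_
  show LQ κ (cm Prod.fst (jo D (sg Ψ))) _
  rw [cm_sg]
  refine lq_jo lq_jo_right (lq_sg ?_)
  rintro φ ⟨ψ, hψ, rfl⟩
  exact h ψ hψ

theorem vi_of {Ψ : Set (Ω → ℂ)} (h : ∀ ψ ∈ Ψ, Vi κ D ψ) (hχ : Vi κ (jo D (sg Ψ)) χ) :
    Vi κ D χ := lq_vi h _ hχ

end

/-- HQB: adjoining visible functions. -/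
theorem st_HQB : ST_HQB := by
  intro Ω _ μ _ S S' p q κ D hSt _ hD hQ hs Ψ hΨ
  subst hΨ
  refine ⟨Pool.Agent.Helper98.TA.ia_sg (St.s1 hSt) hD grp_vi fun φ hφ => hs φ hφ.1 hφ.2.1, ?_⟩
  intro ψ hψ hi M hM hc hv
  exact hQ ψ hψ hi M hM hc (vi_of (fun φ hφ => hφ.2.2) hv)

end Pool.Agent.Helper49.TA
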