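import Pool.Agent.Helper98.TA.Basic
import Pool.Agent.Helper13.TA.WMG

/-! Row WMF of the sheet TA (MP_7a8f48_an): correlations and torsion extensions. -/

set_option linter.unusedSectionVars false

open MeasureTheory Filter Topology Finset
open scoped ComplexConjugate

namespace Pool.Agent.Helper49.TA

open Pool.Agent.Helper98.TW Pool.Agent.Helper73.TWR Pool.Agent.Helper92.TWR
open Pool.Agent.Helper13.GY (bg Van w1_ab bg_nonneg)
open Pool.Agent.Helper98.TA (A0 ad Pw ST_WMF)

section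
variable {Ω : Type} [m0 : MeasurableSpace Ω] {μ : Measure Ω} [IsProbabilityMeasure μ]
  {R R' : Ω → Ω} {C : SA Ω} {τ G φ : Ω → ℂ}

/-- the powers of `τ` below the minimal order are orthonormal over `C` -/
theorem orth (hLZ : ST_LZ) (hR : Sys μ R R') (he : Ergodic R μ) (hC : IA μ C R R')
    (hτ : UF μ τ) (hi : Inc μ C R τ) {m : ℕ}
    (hmin : ∀ j, 1 ≤ j → j < m → ¬ AM μ C (fun x => τ x ^ j)) {i r : ℕ} (h1 : i < m)
    (h2 : r < m) : μ[fun x => τ x ^ i * conj (τ x ^ r)|C] =ᵐ[μ] fun _ => if i = r then 1 else 0 := by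
  have hle : @LE.le (MeasurableSpace Ω) _ C m0 := hC.1
  by_cases hir : i = r
  · subst hir
    have h3 : (fun x => τ x ^ i * conj (τ x ^ i)) =ᵐ[μ] fun _ => (1 : ℂ) := (hτ.pow i).mul_conj
    refine (ce_congr h3).trans ?_
    rw [condExp_const hle, if_pos rfl]
  · rw [if_neg hir]
    rcases hLZ Ω μ R R' C (fun x => τ x ^ i * conj (τ x ^ r)) hR he hC
      ((hτ.pow i).mul (hτ.pow r).conj) ((hi.pow i).mul (hi.pow r).conj) with h3 | h3
    · exact h3
    · exfalso
      rcases lt_or_gt_of_ne hir with h4 | h4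
      · refine hmin (r - i) (by omega) (by omega) (am_congr (am_conj h3) ?_)
        filter_upwards [(hτ.pow i).conj_mul] with x hx
        have h5 : τ x ^ r = τ x ^ (r - i) * τ x ^ i := by
          rw [← pow_add]
          congr 1
          omega
        rw [map_mul, Complex.conj_conj]
        linear_combination (conj (τ x ^ i)) * h5 + (τ x ^ (r - i)) * hx
      · refine hmin (i - r) (by omega) (by omega) (am_congr h3 ?_)
        filter_upwards [(hτ.pow r).mul_conj] with x hx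
        have h5 : τ x ^ i = τ x ^ (i - r) * τ x ^ r := by
          rw [← pow_add]
          congr 1
          omega
        linear_combination (conj (τ x ^ r)) * h5 + (τ x ^ (i - r)) * hx

/-- the elements of `Pw` are small powers of `τ` up to `C` -/
theorem red_pw (hτ : UF μ τ) {m : ℕ} (hm : 1 ≤ m) (hM : AM μ C (fun x => τ x ^ m))
    (hφ : φ ∈ Pw μ C τ) : ∃ r < m, AM μ C (fun x => φ x * conj (τ x ^ r)) := by
  obtain ⟨hφu, n, hn⟩ := hφ
  have hm0 : (0 : ℤ) < m := by exact_mod_cast hm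
  have h1 := Int.emod_nonneg n hm0.ne'
  have h2 := Int.emod_lt_of_pos n hm0
  have h3 := Int.mul_ediv_add_emod n m
  refine ⟨(n % m).toNat, by omega, ?_⟩
  refine am_congr (am_mul hn (Pool.Agent.Helper98.TA.am_zpow hM (n / m))) ?_
  filter_upwards [hτ.2] with x hx
  have h0 : τ x ≠ 0 := fun h => by simp [h] at hx
  have h4 : τ x ^ n = (τ x ^ m) ^ (n / m) * τ x ^ (n % m).toNat := by
    conv_lhs => rw [← h3]
    rw [zpow_add₀ h0, zpow_mul, zpow_natCast]
    congr 1
    rw [← zpow_natCast, Int.toNat_of_nonneg h1]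
  have h5 : (τ x ^ m) ^ (n / m) * conj ((τ x ^ m) ^ (n / m)) = 1 :=
    Pool.Agent.Helper98.TA.zpow_conj_one (by rw [norm_pow, hx, one_pow]) _
  rw [h4, map_mul]
  linear_combination (φ x * conj (τ x ^ (n % m).toNat)) * h5

/-- conditional expectations for torsion extensions -/
theorem ce_tors (hLZ : ST_LZ) (hDNS : ST_DNS) (hR : Sys μ R R') (he : Ergodic R μ)
    (hC : IA μ C R R') (hτ : UF μ τ) (hi : Inc μ C R τ) {m : ℕ} (hm : 1 ≤ m)
    (hM : AM μ C (fun x => τ x ^ m))
    (hmin : ∀ j, 1 ≤ j → j < m → ¬ AM μ C (fun x => τ x ^ j)) (hG : AB μ G) :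
    μ[G|ad μ C τ] =ᵐ[μ] fun x => ∑ i ∈ range m,
      τ x ^ i * (μ[fun x => G x * conj (τ x ^ i)|C]) x := by
  have hgrp : Grp μ (Pw μ C τ) := Pool.Agent.Helper98.TA.grp_Pw hτ
  have hLm : Lm (ad μ C τ) := lm_jo hC.1 (lm_sg fun φ hφ => (hgrp.uf φ hφ).1)
  have hτad : AM μ (ad μ C τ) τ := Pool.Agent.Helper98.TA.am_ad_u hτ
  have hGi : ∀ i, AB μ (fun x => G x * conj (τ x ^ i)) := fun i => hG.mul (hτ.pow i).conj.ab
  set g : ℕ → Ω → ℂ := fun i => μ[fun x => G x * conj (τ x ^ i)|C] with hg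
  have hgab : ∀ i, AB μ (g i) := fun i => AB.ce hC.1 (hGi i)
  have hEab : AB μ (μ[G|ad μ C τ]) := AB.ce hLm hG
  have hterm : ∀ i, AB μ (fun x => τ x ^ i * g i x) := fun i => (hτ.pow i).ab.mul (hgab i)
  have hsum : Integrable (fun x => ∑ i ∈ range m, τ x ^ i * g i x) μ :=
    integrable_finset_sum _ fun i _ => (hterm i).int
  have hsumAM : AM μ (ad μ C τ) (fun x => ∑ i ∈ range m, τ x ^ i * g i x) :=
    am_finset_sum _ fun i _ => am_mul (am_pow hτad i) (am_jo_left ce_am)
  -- the coefficients of the difference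
  have hcoef : ∀ r < m, μ[fun x => ((μ[G|ad μ C τ]) x - ∑ i ∈ range m, τ x ^ i * g i x) *
      conj (τ x ^ r)|C] =ᵐ[μ] 0 := by
    intro r hr
    have hcr : AB μ (fun x => conj (τ x ^ r)) := (hτ.pow r).conj.ab
    -- first part
    have e1 : μ[fun x => (μ[G|ad μ C τ]) x * conj (τ x ^ r)|C] =ᵐ[μ] g r := by
      have h1 : (fun x => (μ[G|ad μ C τ]) x * conj (τ x ^ r)) =ᵐ[μ]
          μ[fun x => G x * conj (τ x ^ r)|ad μ C τ] := by
        have h2 := pullb (μ := μ) (𝒜 := ad μ C τ) (g := fun x => conj (τ x ^ r)) (F := G)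
          (am_conj (am_pow hτad r)) hcr hG.int
        have h3 : μ[fun x => G x * conj (τ x ^ r)|ad μ C τ] =ᵐ[μ]
            μ[fun x => conj (τ x ^ r) * G x|ad μ C τ] :=
          ce_congr (Eventually.of_forall fun x => mul_comm _ _)
        filter_upwards [h2, h3] with x h2 h3
        rw [h3, h2, mul_comm]
      exact (ce_congr h1).trans (ce_tower hC.1 hLm lq_jo_left (hGi r).int)
    -- second part
    have e2 : ∀ i ∈ range m, μ[fun x => τ x ^ i * g i x * conj (τ x ^ r)|C] =ᵐ[μ]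
        fun x => if i = r then g r x else 0 := by
      intro i hi'
      have hp : AB μ (fun x => τ x ^ i * conj (τ x ^ r)) := (hτ.pow i).ab.mul hcr
      have h1 : μ[fun x => τ x ^ i * g i x * conj (τ x ^ r)|C] =ᵐ[μ]
          μ[fun x => g i x * (τ x ^ i * conj (τ x ^ r))|C] :=
        ce_congr (Eventually.of_forall fun x => by ring)
      have h2 := pullb (μ := μ) (𝒜 := C) (g := g i)
        (F := fun x => τ x ^ i * conj (τ x ^ r)) ce_am (hgab i) hp.int
      filter_upwards [h1, h2, orth hLZ hR he hC hτ hi hmin (mem_range.1 hi') hr] with x a b c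
      rw [a, b, c]
      by_cases hir : i = r
      · rw [if_pos hir, if_pos hir, hir, mul_one]
      · rw [if_neg hir, if_neg hir, mul_zero]
    have hi2 : ∀ i ∈ range m, Integrable (fun x => τ x ^ i * g i x * conj (τ x ^ r)) μ :=
      fun i _ => ((hterm i).mul hcr).int
    have e3 : μ[fun x => ∑ i ∈ range m, τ x ^ i * g i x * conj (τ x ^ r)|C] =ᵐ[μ] g r := by
      have h1 : (fun x => ∑ i ∈ range m, τ x ^ i * g i x * conj (τ x ^ r)) =
          ∑ i ∈ range m, fun x => τ x ^ i * g i x * conj (τ x ^ r) := by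
        funext x
        rw [Finset.sum_apply]
      rw [h1]
      have h2 := condExp_finset_sum (μ := μ) hi2 C
      have h3 : ∀ᵐ x ∂μ, ∀ i ∈ range m, (μ[fun x => τ x ^ i * g i x * conj (τ x ^ r)|C]) x =
          if i = r then g r x else 0 :=
        (ae_ball_iff (range m).countable_toSet).2 fun i hi => e2 i hi
      filter_upwards [h2, h3] with x a b
      rw [a, Finset.sum_apply, Finset.sum_congr rfl b, Finset.sum_ite_eq' (range m) r fun _ => g r x,
        if_pos (mem_range.2 hr)]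
    have e4 : (fun x => ((μ[G|ad μ C τ]) x - ∑ i ∈ range m, τ x ^ i * g i x) * conj (τ x ^ r)) =
        fun x => (μ[G|ad μ C τ]) x * conj (τ x ^ r) -
          ∑ i ∈ range m, τ x ^ i * g i x * conj (τ x ^ r) := by
      funext x
      rw [sub_mul, Finset.sum_mul]
    rw [e4]
    have e5 := ce_sub (μ := μ) (𝒜 := C) (hEab.mul hcr).int
      (integrable_finset_sum (range m) (f := fun i x => τ x ^ i * g i x * conj (τ x ^ r)) hi2)
    filter_upwards [e5, e1, e3] with x a b c
    rw [a, b, c]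
    simp
  have hF : (fun x => (μ[G|ad μ C τ]) x - ∑ i ∈ range m, τ x ^ i * g i x) =ᵐ[μ] 0 := by
    refine hDNS Ω μ C (Pw μ C τ) _ hC.1 hgrp (hEab.int.sub hsum) (am_sub ce_am hsumAM)
      fun φ hφ => ?_
    obtain ⟨r, hr, hc⟩ := red_pw hτ hm hM hφ
    have hφu : UF μ φ := hgrp.uf φ hφ
    have hcab : AB μ (fun x => φ x * conj (τ x ^ r)) := hφu.ab.mul (hτ.pow r).conj.ab
    have hint : Integrable (fun x => ((μ[G|ad μ C τ]) x - ∑ i ∈ range m, τ x ^ i * g i x) *
        conj (τ x ^ r)) μ := by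
      have := (hτ.pow r).conj.ab.int_mul (hEab.int.sub hsum)
      refine this.congr (Eventually.of_forall fun x => ?_)
      simp only [Pi.sub_apply]
      ring
    have h1 : (fun x => ((μ[G|ad μ C τ]) x - ∑ i ∈ range m, τ x ^ i * g i x) * conj (φ x)) =ᵐ[μ]
        fun x => conj (φ x * conj (τ x ^ r)) *
          (((μ[G|ad μ C τ]) x - ∑ i ∈ range m, τ x ^ i * g i x) * conj (τ x ^ r)) := by
      filter_upwards [(hτ.pow r).mul_conj] with x hx
      rw [map_mul, Complex.conj_conj]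
      linear_combination (-(((μ[G|ad μ C τ]) x - ∑ i ∈ range m, τ x ^ i * g i x) *
        conj (φ x))) * hx
    have h2 := pullb (μ := μ) (𝒜 := C) (am_conj hc) hcab.conj hint
    filter_upwards [ce_congr (𝒜 := C) h1, h2, hcoef r hr] with x a b c
    rw [a, b, c]
    simp
  filter_upwards [hF] with x hx
  have h1 : (μ[G|ad μ C τ]) x - ∑ i ∈ range m, τ x ^ i * g i x = 0 := hx
  exact sub_eq_zero.1 h1

end

/-- WMF: torsion extensions. -/
theorem st_WMF (hLZ : ST_LZ) (hDNS : ST_DNS) : ST_WMF := by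
  intro Ω _ μ _ R R' C f τ M hR he hC hf hτ hi hM1 hM h0
  classical
  have hex : ∃ m : ℕ, 1 ≤ m ∧ AM μ C (fun x => τ x ^ m) := ⟨M, hM1, hM⟩
  set m := Nat.find hex with hm
  obtain ⟨hm1, hmM⟩ := Nat.find_spec hex
  have hmin : ∀ j, 1 ≤ j → j < m → ¬ AM μ C (fun x => τ x ^ j) := fun j h1 h2 h3 =>
    Nat.find_min hex h2 ⟨h1, h3⟩
  have hV := Pool.Agent.Helper13.TA.a0_iff.1 h0
  refine Pool.Agent.Helper13.TA.a0_iff.2 ?_
  have hfi : ∀ i, AB μ (fun x => f x * τ x ^ i) := fun i => hf.ab.mul (hτ.pow i).ab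
  have hb : ∀ h, be μ (ad μ C τ) R f h ≤
      m * ∑ i ∈ range m, bg μ C R f (fun x => f x * τ x ^ i) h := by
    intro h
    set G : Ω → ℂ := fun x => f (R^[h] x) * conj (f x) with hG
    have hGab : AB μ G := (bf_comp hf (hR.mp.measurable.iterate h)).ab.mul hf.ab.conj
    have h1 := ce_tors hLZ hDNS hR he hC hτ hi hm1 hmM hmin hGab
    have h2 : ∀ i, μ[fun x => G x * conj (τ x ^ i)|C] =ᵐ[μ]
        μ[fun x => f (R^[h] x) * conj (f x * τ x ^ i)|C] := fun i =>
      ce_congr (Eventually.of_forall fun x => by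
        simp only [hG, map_mul]
        ring)
    have h3 : ∀ᵐ x ∂μ, ∀ i, (μ[fun x => G x * conj (τ x ^ i)|C]) x =
        (μ[fun x => f (R^[h] x) * conj (f x * τ x ^ i)|C]) x := ae_all_iff.2 h2
    have hint : ∀ i, Integrable (fun x =>
        ‖(μ[fun x => f (R^[h] x) * conj (f x * τ x ^ i)|C]) x‖ ^ 2) μ := fun i =>
      (ce_memLp (𝒜 := C) ((bf_comp hf (hR.mp.measurable.iterate h)).ab.mul
        (hfi i).conj).memLp).integrable_norm_pow (by norm_num)
    have h4 : ∀ᵐ x ∂μ, ‖(μ[G|ad μ C τ]) x‖ ^ 2 ≤ m * ∑ i ∈ range m,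
        ‖(μ[fun x => f (R^[h] x) * conj (f x * τ x ^ i)|C]) x‖ ^ 2 := by
      filter_upwards [h1, h3, hτ.2] with x a b c
      rw [a]
      have h5 : ‖∑ i ∈ range m, τ x ^ i * (μ[fun x => G x * conj (τ x ^ i)|C]) x‖ ≤
          ∑ i ∈ range m, ‖(μ[fun x => f (R^[h] x) * conj (f x * τ x ^ i)|C]) x‖ := by
        refine (norm_sum_le _ _).trans (le_of_eq (Finset.sum_congr rfl fun i _ => ?_))
        rw [norm_mul, norm_pow, c, one_pow, one_mul, b i]
      refine (pow_le_pow_left₀ (norm_nonneg _) h5 2).trans ?_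
      have h6 := sq_sum_le_card_mul_sum_sq (s := range m)
        (f := fun i => ‖(μ[fun x => f (R^[h] x) * conj (f x * τ x ^ i)|C]) x‖)
      rwa [Finset.card_range] at h6
    show ∫ x, ‖(μ[G|ad μ C τ]) x‖ ^ 2 ∂μ ≤ _
    refine (integral_mono_of_nonneg (Eventually.of_forall fun x => by positivity)
      ((integrable_finset_sum _ fun i _ => hint i).const_mul _) h4).trans (le_of_eq ?_)
    rw [integral_const_mul, integral_finset_sum _ fun i _ => hint i]
    rfl
  have hlim : Tendsto (fun H : ℕ => (m : ℝ) * ∑ i ∈ range m,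
      (∑ h ∈ range H, bg μ C R f (fun x => f x * τ x ^ i) h) / (H : ℝ)) atTop (𝓝 0) := by
    have h1 : Tendsto (fun H : ℕ => ∑ i ∈ range m,
        (∑ h ∈ range H, bg μ C R f (fun x => f x * τ x ^ i) h) / (H : ℝ)) atTop
        (𝓝 (∑ _i ∈ range m, (0 : ℝ))) :=
      tendsto_finset_sum _ fun i _ => w1_ab hR hC hf (hfi i) hV
    have h2 := h1.const_mul (m : ℝ)
    simpa using h2
  refine squeeze_zero (fun H => ?_) (fun H => ?_) hlim
  · exact div_nonneg (Finset.sum_nonneg fun h _ => be_nonneg _ R f h) (Nat.cast_nonneg _)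
  · have h1 : ∑ h ∈ range H, be μ (ad μ C τ) R f h ≤
        m * ∑ i ∈ range m, ∑ h ∈ range H, bg μ C R f (fun x => f x * τ x ^ i) h := by
      refine (Finset.sum_le_sum fun h _ => hb h).trans (le_of_eq ?_)
      rw [← Finset.mul_sum, Finset.sum_comm]
    refine (div_le_div_of_nonneg_right h1 (Nat.cast_nonneg _)).trans (le_of_eq ?_)
    rw [mul_div_assoc, Finset.sum_div]

end Pool.Agent.Helper49.TA
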